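import Pool.Agent.W544.FF.Defs

open Matrix Finset Module MeasureTheory

namespace Pool.Agent.W962.FF

open Pool.Agent.W544.FF

theorem gau (hga1 : S_ga1) (hga2 : S_ga2) : S_gau := by
  classical
  obtain ⟨μ, hμ, hopen, hint, hmom⟩ := hga1
  intro X _ _ k a hnn hex
  have key : ∀ (I : Fin k → X) (x : X → ℝ),
      ∏ j, x (I j) = ∏ y : X, (x y) ^ (univ.filter fun j => I j = y).card := by
    intro I x
    rw [← Finset.prod_fiberwise (s := univ) (g := I) (f := fun j => x (I j))]
    refine Finset.prod_congr rfl fun y _ => ?_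
    rw [Finset.prod_congr rfl (g := fun _ => x y), Finset.prod_const]
    intro j hj
    rw [(Finset.mem_filter.mp hj).2]
  have hI1 : ∀ I : Fin k → X, Integrable (fun x : X → ℝ => ∏ j, x (I j))
      (Measure.pi fun _ : X => μ) := by
    intro I
    simp_rw [key I]
    exact Integrable.fintype_prod (μ := fun _ : X => μ)
      (f := fun (y : X) (z : ℝ) => z ^ (univ.filter fun j => I j = y).card) fun y => hint _
  have hI2 : ∀ I : Fin k → X, ∫ x : X → ℝ, ∏ j, x (I j) ∂(Measure.pi fun _ : X => μ)
      = wick k I := by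
    intro I
    simp_rw [key I]
    rw [integral_fintype_prod_eq_prod (μ := fun _ : X => μ)
      (f := fun (y : X) (z : ℝ) => z ^ (univ.filter fun j => I j = y).card), hga2 X k I]
    exact Finset.prod_congr rfl fun y _ => hmom _
  have hφint : Integrable (fun x : X → ℝ => ∑ I, a I * ∏ j, x (I j))
      (Measure.pi fun _ : X => μ) :=
    integrable_finsetSum _ fun I _ => (hI1 I).const_mul _
  have hsum : ∑ I, a I * wick k I
      = ∫ x : X → ℝ, (∑ I, a I * ∏ j, x (I j)) ∂(Measure.pi fun _ : X => μ) := by
    rw [integral_finsetSum _ fun I _ => (hI1 I).const_mul _]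
    refine Finset.sum_congr rfl fun I _ => ?_
    rw [integral_const_mul, hI2]
  rw [hsum, integral_pos_iff_support_of_nonneg (fun x => hnn x) hφint]
  obtain ⟨x0, hx0⟩ := hex
  haveI : Measure.IsOpenPosMeasure μ := ⟨fun U hU hne => (hopen U hU hne).ne'⟩
  haveI : Measure.IsOpenPosMeasure (Measure.pi fun _ : X => μ) := inferInstance
  have hcont : Continuous fun x : X → ℝ => ∑ I, a I * ∏ j, x (I j) := by
    fun_prop
  exact IsOpen.measure_pos _ (hcont.isOpen_support) ⟨x0, by
    rw [Function.mem_support]; exact hx0.ne'⟩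

end Pool.Agent.W962.FF
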